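import Mathlib
import Pool.Agent.H.MP_38d52f_an.C

set_option autoImplicit false

open Filter Topology Set Function

namespace Pool.Agent.Results.MP_38d52f_an.Yes

open Pool.Agent.H.MP_38d52f_an

/-- The two-parameter Mittag-Leffler function `E_{a,b}(z) = ∑ z^k / Γ(a k + b)`. -/
noncomputable def E (a b : ℝ) (z : ℂ) : ℂ := ∑' k : ℕ, z ^ k / Complex.Gamma (a * k + b)

/-- `f_α(t) = |E_{2α,1}(-t)|^2 + t |E_{2α,1+α}(-t)|^2`. -/
noncomputable def f (α t : ℝ) : ℝ :=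
  ‖E (2 * α) 1 (-t)‖ ^ 2 + t * ‖E (2 * α) (1 + α) (-t)‖ ^ 2

noncomputable def M (β : ℝ) (N : ℕ) (s : ℝ) : ℝ := ((N : ℝ) + 1) ^ ((1 - β) * s) * P β (N + 2) s

theorem M_eq {β s : ℝ} (h0 : 0 ≤ β) (hs : 0 ≤ s) (N : ℕ) :
    M β N s = Real.GammaSeq (1 + s) (N + 1) / Real.GammaSeq (1 + β * s) (N + 1) := by
  have hN : (0 : ℝ) < N + 1 := by positivity
  have p1 : ∏ j ∈ Finset.range (N + 2), (1 + s + j) ≠ 0 :=
    Finset.prod_ne_zero_iff.2 (fun j _ => by positivity)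
  have p2 : ∏ j ∈ Finset.range (N + 2), (1 + β * s + j) ≠ 0 :=
    Finset.prod_ne_zero_iff.2 (fun j _ => by positivity)
  have e : P β (N + 2) s = (∏ j ∈ Finset.range (N + 2), (1 + β * s + j)) /
      ∏ j ∈ Finset.range (N + 2), (1 + s + j) := by
    rw [P, ← Finset.prod_div_distrib]
    exact Finset.prod_congr rfl (fun j _ => by congr 1 <;> ring)
  have e2 : ((N : ℝ) + 1) ^ (1 + s) = (N + 1) ^ ((1 - β) * s) * (N + 1) ^ (1 + β * s) := by
    rw [← Real.rpow_add hN]; congr 1; ring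
  have p3 : ((N : ℝ) + 1) ^ (1 + β * s) ≠ 0 := (Real.rpow_pos_of_pos hN _).ne'
  have p4 : (((N + 1).factorial : ℕ) : ℝ) ≠ 0 := by positivity
  rw [M, e, Real.GammaSeq, Real.GammaSeq]
  push_cast
  rw [e2]
  field_simp

theorem M_lim {β s : ℝ} (h0 : 0 ≤ β) (hs : 0 ≤ s) :
    Tendsto (fun N => M β N s) atTop (𝓝 (Real.Gamma (1 + s) / Real.Gamma (1 + β * s))) := by
  simp_rw [M_eq h0 hs]
  exact ((Real.GammaSeq_tendsto_Gamma _).comp (tendsto_add_atTop_nat 1)).div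
    ((Real.GammaSeq_tendsto_Gamma _).comp (tendsto_add_atTop_nat 1))
    (Real.Gamma_pos_of_pos (by positivity)).ne'

theorem M_mono {β s : ℝ} (h0 : 0 ≤ β) (h1 : β ≤ 1) (hs : 0 ≤ s) :
    Monotone (fun N => M β N s) := by
  refine monotone_nat_of_le_succ (fun N => ?_)
  have hN : (0 : ℝ) < N + 1 := by positivity
  have hP := (P_mem h0 h1 hs (N + 2)).1
  have hd : 0 ≤ (1 - β) * s := mul_nonneg (by linarith) hs
  have e : P β (N + 1 + 2) s = P β (N + 2) s * ((N + 3 + β * s) / (N + 3 + s)) := by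
    rw [P, show N + 1 + 2 = (N + 2) + 1 by ring, Finset.prod_range_succ, P]
    congr 1; push_cast; congr 1 <;> ring
  have e2 : (((N + 1 : ℕ) : ℝ) + 1) ^ ((1 - β) * s) =
      (N + 1) ^ ((1 - β) * s) * ((N + 2) / (N + 1)) ^ ((1 - β) * s) := by
    rw [← Real.mul_rpow hN.le (by positivity)]; congr 1; push_cast; field_simp; ring
  have hlog : 1 / ((N : ℝ) + 2) ≤ Real.log ((N + 2) / (N + 1)) := by
    have := Real.one_sub_inv_le_log_of_pos (show (0 : ℝ) < (N + 2) / (N + 1) by positivity)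
    refine le_trans (le_of_eq ?_) this
    field_simp; ring
  have h3 : 1 + (1 - β) * s * (1 / ((N : ℝ) + 2)) ≤ ((N + 2) / (N + 1)) ^ ((1 - β) * s) := by
    rw [Real.rpow_def_of_pos (by positivity)]
    have := Real.add_one_le_exp (Real.log (((N : ℝ) + 2) / (N + 1)) * ((1 - β) * s))
    nlinarith [mul_le_mul_of_nonneg_left hlog hd]
  have h4 : 1 ≤ (((N : ℝ) + 2) / (N + 1)) ^ ((1 - β) * s) * ((N + 3 + β * s) / (N + 3 + s)) := by
    rw [← mul_div_assoc, le_div_iff₀ (by positivity), one_mul]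
    have hb : 0 ≤ β * s := mul_nonneg h0 hs
    have h5 : (1 - β) * s ≤ (1 - β) * s * (1 / ((N : ℝ) + 2)) * (N + 3 + β * s) := by
      rw [mul_assoc ((1 - β) * s)]
      refine le_mul_of_one_le_right hd ?_
      rw [one_div_mul_eq_div, le_div_iff₀ (by positivity)]; linarith
    nlinarith [mul_le_mul_of_nonneg_right h3 (show 0 ≤ (N : ℝ) + 3 + β * s by positivity)]
  simp only [M]
  rw [e, e2]
  have h6 : 0 ≤ ((N : ℝ) + 1) ^ ((1 - β) * s) * P β (N + 2) s := by positivity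
  nlinarith [mul_le_mul_of_nonneg_left h4 h6]

noncomputable def lc (β : ℝ) (k : ℕ) (j : ℕ) : ℝ := 1 / Real.Gamma (β * j + (β * k / 2 + 1))

theorem lc_ent {β : ℝ} (h0 : 0 < β) (k : ℕ) : Ent (lc β k) :=
  ent_gamma h0 (by have : 0 ≤ β * k / 2 := by positivity
                   linarith)

theorem lim_S {β : ℝ} (h0 : 0 < β) (h1 : β ≤ 1) (k : ℕ) (t : ℝ) :
    Tendsto (fun N : ℕ => (((N : ℝ) + 1) ^ ((1 - β) / 2)) ^ k *
      S (cf β k (N + 2)) ((((N : ℝ) + 1) ^ ((1 - β) / 2)) ^ 2 * t)) atTop (𝓝 (S (lc β k) t)) := by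
  have hs : ∀ j : ℕ, (0 : ℝ) ≤ j + k / 2 := fun j => by positivity
  have hG : ∀ j : ℕ, 0 < Real.Gamma (1 + (j + k / 2)) := fun j =>
    Real.Gamma_pos_of_pos (by positivity)
  have e : ∀ N : ℕ, (((N : ℝ) + 1) ^ ((1 - β) / 2)) ^ k *
      S (cf β k (N + 2)) ((((N : ℝ) + 1) ^ ((1 - β) / 2)) ^ 2 * t) =
      ∑' j : ℕ, M β N (j + k / 2) / Real.Gamma (1 + (j + k / 2)) * (-t) ^ j := by
    intro N
    have hN : (0 : ℝ) < N + 1 := by positivity
    rw [S, ← tsum_mul_left]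
    refine tsum_congr (fun j => ?_)
    have : ((N : ℝ) + 1) ^ ((1 - β) * (j + k / 2)) =
        (((N : ℝ) + 1) ^ ((1 - β) / 2)) ^ k * ((((N : ℝ) + 1) ^ ((1 - β) / 2)) ^ 2) ^ j := by
      rw [← pow_mul, ← pow_add, ← Real.rpow_natCast, ← Real.rpow_mul hN.le]
      congr 1; push_cast; ring
    rw [M, this, cf, show (1 : ℝ) * j + (k / 2 + 1) = 1 + (j + k / 2) by ring,
      show -((((N : ℝ) + 1) ^ ((1 - β) / 2)) ^ 2 * t) = (((N : ℝ) + 1) ^ ((1 - β) / 2)) ^ 2 * (-t)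
        by ring, mul_pow]
    ring
  have el : ∀ j : ℕ, lc β k j = Real.Gamma (1 + (j + k / 2)) / Real.Gamma (1 + β * (j + k / 2)) /
      Real.Gamma (1 + (j + k / 2)) := by
    intro j
    rw [lc, show β * j + (β * k / 2 + 1) = 1 + β * (j + k / 2) by ring]
    have := (hG j).ne'
    field_simp
  simp_rw [e]
  refine tendsto_tsum_of_dominated_convergence (lc_ent h0 k |t| (abs_nonneg t)) (fun j => ?_)
    (Eventually.of_forall (fun N j => ?_))
  · rw [el]; exact ((M_lim h0.le (hs j)).div_const _).mul_const _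
  · have hM0 : 0 ≤ M β N (j + k / 2) :=
      mul_nonneg (by positivity) (P_mem h0.le h1 (hs j) _).1
    have hM := (M_mono h0.le h1 (hs j)).ge_of_tendsto (M_lim h0.le (hs j)) N
    rw [norm_mul, norm_pow, norm_neg, Real.norm_eq_abs, Real.norm_eq_abs,
      abs_of_nonneg (div_nonneg hM0 (hG j).le)]
    refine mul_le_mul_of_nonneg_right (le_trans ?_ (le_abs_self _)) (by positivity)
    rw [el]; exact div_le_div_of_nonneg_right hM (hG j).le

theorem E_real (a b t : ℝ) :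
    ‖E a b (-t)‖ ^ 2 = (S (fun j => 1 / Real.Gamma (a * j + b)) t) ^ 2 := by
  have : E a b (-t) = (S (fun j => 1 / Real.Gamma (a * j + b)) t : ℝ) := by
    rw [E, S, Complex.ofReal_tsum]
    refine tsum_congr (fun j => ?_)
    rw [show ((a : ℂ) * j + b) = ((a * j + b : ℝ) : ℂ) by push_cast; ring, Complex.Gamma_ofReal]
    push_cast; ring
  rw [this, Complex.norm_real, Real.norm_eq_abs, sq_abs]

theorem f_eq (α : ℝ) : f α = fun t => S (lc (2 * α) 0) t * S (lc (2 * α) 0) t +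
    t * S (lc (2 * α) 1) t * S (lc (2 * α) 1) t := by
  funext t
  have e0 : lc (2 * α) 0 = fun j : ℕ => 1 / Real.Gamma (2 * α * j + 1) := by
    funext j; simp [lc]
  have e1 : lc (2 * α) 1 = fun j : ℕ => 1 / Real.Gamma (2 * α * j + (1 + α)) := by
    funext j; rw [lc]; congr 2; push_cast; ring
  rw [f, E_real, E_real, e0, e1]; ring

theorem result (α : ℝ) (h0 : 0 < α) (h1 : α ≤ 1 / 2) :
    ContDiffOn ℝ ⊤ (f α) (Ioi 0) ∧
    (∀ (n : ℕ) (t : ℝ), 0 < t → 0 ≤ (-1) ^ n * iteratedDeriv n (f α) t) ∧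
    (∀ t : ℝ, 0 < t → 0 < f α t) ∧
    ConvexOn ℝ (Ioi 0) (fun t => Real.log (f α t)) := by
  have b0 : 0 < 2 * α := by linarith
  have b1 : 2 * α ≤ 1 := by linarith
  have hsm : ContDiff ℝ ⊤ (f α) := by
    rw [f_eq]
    exact ((lc_ent b0 0).smooth.mul (lc_ent b0 0).smooth).add
      ((contDiff_id.mul (lc_ent b0 1).smooth).mul (lc_ent b0 1).smooth)
  have hC : Cn (f α) := by
    refine Cn_lim (l := atTop) (Eventually.of_forall (fun N : ℕ =>
      good_cf b0.le b1 (N + 2) (((N : ℝ) + 1) ^ ((1 - 2 * α) / 2))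
        (((N : ℝ) + 1) ^ ((1 - 2 * α) / 2)) (by positivity) (by positivity))) (fun t _ => ?_)
    have l0 := lim_S b0 b1 0 t
    have l1 := lim_S b0 b1 1 t
    simp only [pow_zero, one_mul, pow_one] at l0 l1
    rw [f_eq]
    exact (l0.mul l0).add ((l1.const_mul t).mul l1)
  have hf0 : 0 < f α 0 := by
    rw [f_eq]
    have : S (lc (2 * α) 0) 0 = 1 := by
      rw [S, tsum_eq_single 0 (fun j hj => by simp [hj])]; simp [lc]
    simp [this]
  have hpos : ∀ t : ℝ, 0 < t → 0 < f α t := fun t ht => Cn_pos hC hsm.continuous hf0 ht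
  exact ⟨hsm.contDiffOn, fun n t ht => Cn_nonneg (Cn_iter n hC hsm) ht, hpos, Cn_logcvx hC hpos⟩

end Pool.Agent.Results.MP_38d52f_an.Yes
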